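import Pool.Agent.Q142.Cone.Good

set_option autoImplicit false

open Filter Topology Cardinal

namespace Pool.Agent.Q142.Cone

/-- The rooted binary tree: a point is given by its distance `h` from the root and a word `w`,
whose `n`-th letter matters only for `n < h`. -/
@[ext] structure BT where
  /-- the word -/
  w : ℕ → Bool
  /-- the distance to the root -/
  h : ℝ
  nonneg : 0 ≤ h
  supp : ∀ n : ℕ, h ≤ n → w n = false

namespace BT

open Classical in
/-- the height of the last common point of the paths from the root -/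
noncomputable def cf (x y : BT) : ℝ :=
  min (min x.h y.h) (if H : ∃ n, x.w n ≠ y.w n then (Nat.find H : ℝ) else x.h)

theorem le_cf_iff (x y : BT) (t : ℝ) :
    t ≤ cf x y ↔ t ≤ x.h ∧ t ≤ y.h ∧ ∀ n : ℕ, (n : ℝ) < t → x.w n = y.w n := by
  classical
  unfold cf
  rw [le_min_iff, le_min_iff, and_assoc]
  refine and_congr_right fun h1 => and_congr_right fun h2 => ?_
  split_ifs with H
  · constructor
    · intro h n hn
      by_contra hne
      have h3 : Nat.find H ≤ n := Nat.find_min' H hne
      have h4 : ((Nat.find H : ℕ) : ℝ) ≤ n := by exact_mod_cast h3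
      linarith
    · intro h
      by_contra hlt
      push Not at hlt
      exact Nat.find_spec H (h _ hlt)
  · push Not at H
    exact ⟨fun _ n _ => H n, fun _ => h1⟩

theorem cf_le_left (x y : BT) : cf x y ≤ x.h := ((le_cf_iff x y _).1 le_rfl).1

theorem cf_le_right (x y : BT) : cf x y ≤ y.h := ((le_cf_iff x y _).1 le_rfl).2.1

theorem cf_comm (x y : BT) : cf x y = cf y x := by
  apply le_antisymm
  · rw [le_cf_iff]
    have := (le_cf_iff x y _).1 le_rfl
    exact ⟨this.2.1, this.1, fun n hn => (this.2.2 n hn).symm⟩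
  · rw [le_cf_iff]
    have := (le_cf_iff y x _).1 le_rfl
    exact ⟨this.2.1, this.1, fun n hn => (this.2.2 n hn).symm⟩

theorem cf_self (x : BT) : cf x x = x.h := by
  apply le_antisymm (cf_le_left x x)
  rw [le_cf_iff]
  exact ⟨le_rfl, le_rfl, fun _ _ => rfl⟩

theorem cf_ultra (x y z : BT) : min (cf x y) (cf y z) ≤ cf x z := by
  rw [le_cf_iff]
  have h1 := (le_cf_iff x y _).1 (min_le_left (cf x y) (cf y z))
  have h2 := (le_cf_iff y z _).1 (min_le_right (cf x y) (cf y z))
  exact ⟨h1.1, h2.2.1, fun n hn => (h1.2.2 n hn).trans (h2.2.2 n hn)⟩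

theorem cf_nonneg (x y : BT) : 0 ≤ cf x y := by
  rw [le_cf_iff]
  refine ⟨x.nonneg, y.nonneg, fun n hn => ?_⟩
  have : (0 : ℝ) ≤ n := Nat.cast_nonneg n
  linarith

noncomputable instance : MetricSpace BT where
  dist x y := x.h + y.h - 2 * cf x y
  dist_self x := by rw [cf_self]; ring
  dist_comm x y := by rw [cf_comm]; ring
  dist_triangle x y z := by
    have h1 := cf_ultra x y z
    have h2 := cf_le_right x y
    have h3 := cf_le_left y z
    rcases min_le_iff.1 h1 with h | h
    · linarith
    · linarith
  eq_of_dist_eq_zero := by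
    intro x y h
    have h1 := cf_le_left x y
    have h2 := cf_le_right x y
    have h3 : cf x y = x.h := by linarith
    have h4 : x.h = y.h := by linarith
    have h5 := ((le_cf_iff x y _).1 le_rfl).2.2
    rw [h3] at h5
    ext n
    · by_cases hn : (n : ℝ) < x.h
      · exact h5 n hn
      · push Not at hn
        rw [x.supp n hn, y.supp n (h4 ▸ hn)]
    · exact h4

theorem dist_def (x y : BT) : dist x y = x.h + y.h - 2 * cf x y := rfl

theorem four : Four BT := by
  intro x y z w
  simp only [dist_def]
  have h1 := cf_ultra x y z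
  have h2 := cf_ultra x w z
  have h3 := cf_ultra y x w
  have h4 := cf_ultra y z w
  rw [cf_comm y x] at h3
  rw [cf_comm w z] at h2
  set a := cf x y
  set b := cf z w
  set p := cf x w
  set q := cf y z
  set X := cf x z
  set Y := cf y w
  have key : min (a + b) (p + q) ≤ X + Y := by
    rw [min_le_iff]
    rcases min_le_iff.1 h1 with h1 | h1 <;> rcases min_le_iff.1 h2 with h2 | h2 <;>
      rcases min_le_iff.1 h3 with h3 | h3 <;> rcases min_le_iff.1 h4 with h4 | h4 <;>
      rcases le_total X Y with h5 | h5 <;>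
      first
        | (left; linarith)
        | (right; linarith)
  rcases min_le_iff.1 key with h | h
  · rw [le_max_iff]; left; linarith
  · rw [le_max_iff]; right; linarith

/-- the point at height `t` on (an extension of) the path from the root to `x` -/
noncomputable def trunc (x : BT) (t : ℝ) (ht : 0 ≤ t) : BT where
  w n := if (n : ℝ) < t then x.w n else false
  h := t
  nonneg := ht
  supp n hn := by rw [if_neg (not_lt.2 hn)]

theorem cf_trunc (x y : BT) (s t : ℝ) (hs : 0 ≤ s) (ht : 0 ≤ t) (hsx : s ≤ x.h) (hty : t ≤ y.h) :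
    cf (trunc x s hs) (trunc y t ht) = min (min s t) (cf x y) := by
  apply le_antisymm
  · have h := (le_cf_iff (trunc x s hs) (trunc y t ht) _).1 le_rfl
    obtain ⟨h1, h2, h3⟩ := h
    change _ ≤ s at h1
    change _ ≤ t at h2
    refine le_min (le_min h1 h2) ?_
    rw [le_cf_iff]
    refine ⟨h1.trans hsx, h2.trans hty, fun n hn => ?_⟩
    have h4 := h3 n hn
    simp only [trunc, if_pos (hn.trans_le h1), if_pos (hn.trans_le h2)] at h4
    exact h4
  · rw [le_cf_iff]
    refine ⟨(min_le_left _ _).trans (min_le_left _ _), (min_le_left _ _).trans (min_le_right _ _),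
      fun n hn => ?_⟩
    have h1 : (n : ℝ) < s := hn.trans_le ((min_le_left _ _).trans (min_le_left _ _))
    have h2 : (n : ℝ) < t := hn.trans_le ((min_le_left _ _).trans (min_le_right _ _))
    have h3 : (n : ℝ) < cf x y := hn.trans_le (min_le_right _ _)
    simp only [trunc, if_pos h1, if_pos h2]
    exact ((le_cf_iff x y _).1 le_rfl).2.2 n h3

theorem trunc_self (x : BT) : trunc x x.h x.nonneg = x := by
  ext n
  · simp only [trunc]
    split_ifs with h
    · rfl
    · exact (x.supp n (not_lt.1 h)).symm
  · rfl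

theorem geodesic : Geodesic BT := by
  classical
  intro x y
  set c := cf x y with hc
  have hcx : c ≤ x.h := cf_le_left x y
  have hcy : c ≤ y.h := cf_le_right x y
  have hc0 : 0 ≤ c := cf_nonneg x y
  have hd : dist x y = x.h + y.h - 2 * c := rfl
  let γ : ℝ → BT := fun s => if s ≤ x.h - c then trunc x (max 0 (x.h - s)) (le_max_left _ _)
    else trunc y (max 0 (s - x.h + 2 * c)) (le_max_left _ _)
  have h1 : ∀ s, 0 ≤ s → s ≤ x.h - c → ∃ h : 0 ≤ x.h - s, γ s = trunc x (x.h - s) h := by
    intro s hs hs'
    refine ⟨by linarith, ?_⟩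
    simp only [γ, if_pos hs']
    congr 1
    exact max_eq_right (by linarith)
  have h2 : ∀ s, x.h - c ≤ s → s ≤ dist x y → ∃ h : 0 ≤ s - x.h + 2 * c,
      γ s = trunc y (s - x.h + 2 * c) h := by
    intro s hs hs'
    refine ⟨by linarith, ?_⟩
    rcases hs.eq_or_lt with h | h
    · obtain ⟨h3, h4⟩ := h1 s (by linarith) h.symm.le
      rw [h4]
      have h5 : x.h - s = c := by linarith
      have h6 : s - x.h + 2 * c = c := by linarith
      have h7 : dist (trunc x (x.h - s) h3) (trunc y (s - x.h + 2 * c) (by linarith)) = 0 := by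
        rw [dist_def, cf_trunc x y _ _ _ _ (by linarith) (by linarith)]
        simp only [trunc, h5, h6, min_self, ← hc]
        ring
      exact dist_eq_zero.1 h7
    · simp only [γ, if_neg (not_le.2 h)]
      congr 1
      exact max_eq_right (by linarith)
  refine ⟨γ, ?_, ?_, ?_⟩
  · obtain ⟨h3, h4⟩ := h1 0 le_rfl (by linarith)
    rw [h4]
    have : ∀ (t : ℝ) (ht : 0 ≤ t), t = x.h → trunc x t ht = x := by
      rintro t ht rfl
      exact trunc_self x
    exact this _ _ (by ring)
  · obtain ⟨h3, h4⟩ := h2 (dist x y) (by linarith) le_rfl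
    rw [h4]
    have : ∀ (t : ℝ) (ht : 0 ≤ t), t = y.h → trunc y t ht = y := by
      rintro t ht rfl
      exact trunc_self y
    exact this _ _ (by rw [hd]; ring)
  · have key : ∀ s t, 0 ≤ s → s ≤ t → t ≤ dist x y → dist (γ s) (γ t) = t - s := by
      intro s t hs hst ht
      rcases le_total t (x.h - c) with h3 | h3
      · obtain ⟨a1, a2⟩ := h1 s hs (hst.trans h3)
        obtain ⟨b1, b2⟩ := h1 t (hs.trans hst) h3
        rw [a2, b2, dist_def, cf_trunc x x _ _ _ _ (by linarith) (by linarith), cf_self]
        simp only [trunc]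
        rw [min_eq_right (by linarith : x.h - t ≤ x.h - s), min_eq_left (by linarith)]
        ring
      · obtain ⟨b1, b2⟩ := h2 t h3 ht
        rcases le_total s (x.h - c) with h4 | h4
        · obtain ⟨a1, a2⟩ := h1 s hs h4
          rw [a2, b2, dist_def, cf_trunc x y _ _ _ _ (by linarith) (by linarith), ← hc]
          simp only [trunc]
          rw [min_eq_right (le_min (by linarith) (by linarith))]
          ring
        · obtain ⟨a1, a2⟩ := h2 s h4 (hst.trans ht)
          rw [a2, b2, dist_def, cf_trunc y y _ _ _ _ (by linarith) (by linarith), cf_self]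
          simp only [trunc]
          rw [min_eq_left (by linarith : s - x.h + 2 * c ≤ t - x.h + 2 * c),
            min_eq_left (by linarith)]
          ring
    intro s t hs hs' ht ht'
    rcases le_total s t with h3 | h3
    · rw [key s t hs h3 ht', abs_of_nonpos (by linarith)]
      ring
    · rw [dist_comm, key t s ht h3 hs', abs_of_nonneg (by linarith)]

/-- the points of height at most `N`, parametrised -/
noncomputable def par (N : ℕ) (s : Fin N → Bool) (t : Set.Icc (0 : ℝ) N) : BT where
  w n := if (n : ℝ) < t then (if h : n < N then s ⟨n, h⟩ else false) else false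
  h := t
  nonneg := t.2.1
  supp n hn := by rw [if_neg (not_lt.2 hn)]

theorem par_isometry (N : ℕ) (s : Fin N → Bool) : Isometry (par N s) := by
  refine Isometry.of_dist_eq fun t t' => ?_
  have key : cf (par N s t) (par N s t') = min (t : ℝ) t' := by
    apply le_antisymm
    · exact le_min (cf_le_left _ _) (cf_le_right _ _)
    · rw [le_cf_iff]
      refine ⟨min_le_left _ _, min_le_right _ _, fun n hn => ?_⟩
      simp only [par, if_pos (hn.trans_le (min_le_left _ _)),
        if_pos (hn.trans_le (min_le_right _ _))]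
  rw [dist_def, key, Subtype.dist_eq, Real.dist_eq]
  change (t : ℝ) + t' - 2 * min (t : ℝ) t' = _
  rcases le_total (t : ℝ) t' with h | h
  · rw [min_eq_left h, abs_of_nonpos (by linarith)]; ring
  · rw [min_eq_right h, abs_of_nonneg (by linarith)]; ring

theorem exists_par (N : ℕ) (x : BT) (hx : x.h ≤ N) : ∃ s t, par N s t = x := by
  refine ⟨fun n => x.w n, ⟨x.h, x.nonneg, hx⟩, ?_⟩
  ext n
  · simp only [par]
    split_ifs with h1 h2
    · rfl
    · exfalso
      apply h2
      have : (n : ℝ) < N := h1.trans_le hx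
      exact_mod_cast this
    · exact (x.supp n (not_lt.1 h1)).symm
  · rfl

theorem abs_h_sub_le (x y : BT) : x.h ≤ y.h + dist y x := by
  have h1 := cf_le_left y x
  have h2 : dist y x = y.h + x.h - 2 * cf y x := rfl
  linarith

theorem isCompact_low (N : ℕ) : IsCompact {x : BT | x.h ≤ N} := by
  have : {x : BT | x.h ≤ N} = ⋃ s : Fin N → Bool, Set.range (par N s) := by
    ext x
    simp only [Set.mem_ofPred_eq, Set.mem_iUnion, Set.mem_range]
    constructor
    · intro hx
      exact exists_par N x hx
    · rintro ⟨s, t, rfl⟩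
      exact t.2.2
  rw [this]
  exact isCompact_iUnion fun s => isCompact_range (par_isometry N s).continuous

instance : ProperSpace BT where
  isCompact_closedBall x R := by
    obtain ⟨N, hN⟩ := exists_nat_ge (x.h + R)
    refine (isCompact_low N).of_isClosed_subset Metric.isClosed_closedBall fun y hy => ?_
    rw [Metric.mem_closedBall, dist_comm] at hy
    have := abs_h_sub_le y x
    change y.h ≤ N
    linarith

/-- the root -/
def root : BT := ⟨fun _ => false, 0, le_rfl, fun _ _ => rfl⟩

/-- branches below a point -/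
noncomputable def br (b : BT) (t : ℝ) (ht : 0 ≤ t) (k : ℕ) (s : Fin k → Bool) : BT where
  w n := if (n : ℝ) < b.h + t then
      (if (n : ℝ) < b.h then b.w n else
        if h : n - ⌈b.h⌉₊ < k then s ⟨n - ⌈b.h⌉₊, h⟩ else false)
    else false
  h := b.h + t
  nonneg := add_nonneg b.nonneg ht
  supp n hn := by rw [if_neg (not_lt.2 hn)]

theorem cf_br (b : BT) (t : ℝ) (ht : 0 ≤ t) (k : ℕ) (s : Fin k → Bool) :
    cf b (br b t ht k s) = b.h := by
  apply le_antisymm (cf_le_left _ _)
  rw [le_cf_iff]
  refine ⟨le_rfl, le_add_of_nonneg_right ht, fun n hn => ?_⟩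
  simp only [br, if_pos (hn.trans_le (le_add_of_nonneg_right ht)), if_pos hn]

theorem cf_br_br (b : BT) (t : ℝ) (ht : 0 ≤ t) (k : ℕ) (s s' : Fin k → Bool) (hs : s ≠ s') :
    cf (br b t ht k s) (br b t ht k s') ≤ b.h + 1 + k := by
  obtain ⟨j, hj⟩ := Function.ne_iff.1 hs
  by_contra hlt
  push Not at hlt
  have h0 := (le_cf_iff (br b t ht k s) (br b t ht k s') _).1 le_rfl
  have h1 : ((⌈b.h⌉₊ + j : ℕ) : ℝ) < cf (br b t ht k s) (br b t ht k s') := by
    refine lt_trans ?_ hlt
    have h2 := Nat.ceil_lt_add_one b.nonneg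
    have h3 : ((j : ℕ) : ℝ) ≤ k := by exact_mod_cast j.2.le
    push_cast
    linarith
  have h2 := h0.2.2 _ h1
  have h3 : ((⌈b.h⌉₊ + j : ℕ) : ℝ) < b.h + t := h1.trans_le h0.1
  have h4 : ¬ ((⌈b.h⌉₊ + j : ℕ) : ℝ) < b.h := by
    have := Nat.le_ceil b.h
    push_cast
    have : (0 : ℝ) ≤ (j : ℕ) := Nat.cast_nonneg _
    linarith
  simp only [br, if_pos h3, if_neg h4, Nat.add_sub_cancel_left, j.2, dif_pos] at h2
  exact hj h2

theorem good : Good BT where
  nonempty := ⟨root⟩
  between := fun x y t ht ht' => by
    obtain ⟨γ, h1, h2, h3⟩ := geodesic x y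
    refine ⟨γ t, ?_, ?_⟩
    · have := h3 0 t le_rfl dist_nonneg ht ht'
      rw [h1] at this
      rw [this, zero_sub, abs_neg, abs_of_nonneg ht]
    · have := h3 t (dist x y) ht ht' dist_nonneg le_rfl
      rw [h2] at this
      rw [this, abs_of_nonpos (by linarith)]
      ring
  hyp := ⟨0, fun x y z w => by rw [add_zero]; exact four x y z w⟩
  branch := by
    refine ⟨fun k => 2 + 2 * k, fun b t k ht => ⟨br b t ht k, fun s => ?_, fun s s' hs => ?_⟩⟩
    · rw [dist_def, cf_br]
      change |b.h + (b.h + t) - 2 * b.h - t| ≤ _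
      have : b.h + (b.h + t) - 2 * b.h - t = 0 := by ring
      rw [this, abs_zero]
      positivity
    · rw [dist_def]
      have := cf_br_br b t ht k s s' hs
      change 2 * t - (2 + 2 * (k : ℝ)) ≤ (b.h + t) + (b.h + t) - 2 * _
      linarith
  card := by
    have h1 : #BT ≤ #((ℕ → Bool) × ℝ) :=
      Cardinal.mk_le_of_injective (f := fun x : BT => (x.w, x.h)) fun x y hxy => by
        have h2 := congrArg Prod.fst hxy
        have h3 := congrArg Prod.snd hxy
        exact BT.ext h2 h3
    refine h1.trans ?_
    rw [Cardinal.mk_prod, Cardinal.lift_id, Cardinal.lift_id, Cardinal.mk_real]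
    simp

end BT

end Pool.Agent.Q142.Cone
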