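import Mathlib

set_option autoImplicit false

open Filter Topology

namespace Pool.Agent.Q142.Cone

/-! ### Rate functions and spectra -/

/-- A rate function `f : {1, 2, 3, ...} → (0, ∞)` (the value at `0` is irrelevant): nondecreasing,
unbounded and scaling invariant. -/
structure IsRate (f : ℕ → ℝ) : Prop where
  pos : ∀ n, 1 ≤ n → 0 < f n
  mono : ∀ m n, 1 ≤ m → m ≤ n → f m ≤ f n
  unbounded : ∀ C : ℝ, ∃ n, 1 ≤ n ∧ C < f n
  scaling : ∀ M : ℕ, 1 ≤ M → ∃ c C : ℝ, 0 < c ∧ 0 < C ∧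
    ∀ᶠ N : ℕ in atTop, c * f N ≤ f (M * N) ∧ f (M * N) ≤ C * f N

/-- rate functions -/
def Rate : Type := {f : ℕ → ℝ // IsRate f}

/-- `f` and `g` have the same growth type. -/
def SameGrowth (f g : ℕ → ℝ) : Prop :=
  ∃ c C : ℝ, 0 < c ∧ 0 < C ∧ ∀ᶠ N : ℕ in atTop, c * g N ≤ f N ∧ f N ≤ C * g N

theorem SameGrowth.refl (f : ℕ → ℝ) : SameGrowth f f :=
  ⟨1, 1, one_pos, one_pos, Eventually.of_forall fun N => by simp⟩

theorem SameGrowth.symm {f g : ℕ → ℝ} (h : SameGrowth f g) : SameGrowth g f := by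
  obtain ⟨c, C, hc, hC, h⟩ := h
  refine ⟨C⁻¹, c⁻¹, inv_pos.2 hC, inv_pos.2 hc, h.mono fun N hN => ⟨?_, ?_⟩⟩
  · rw [inv_mul_le_iff₀ hC]; exact hN.2
  · rw [le_inv_mul_iff₀ hc]; exact hN.1

theorem SameGrowth.trans {f g k : ℕ → ℝ} (h : SameGrowth f g) (h' : SameGrowth g k) :
    SameGrowth f k := by
  obtain ⟨c, C, hc, hC, h⟩ := h
  obtain ⟨c', C', hc', hC', h'⟩ := h'
  refine ⟨c * c', C * C', mul_pos hc hc', mul_pos hC hC', ?_⟩
  filter_upwards [h, h'] with N h1 h2
  constructor
  · calc c * c' * k N = c * (c' * k N) := by ring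
      _ ≤ c * g N := mul_le_mul_of_nonneg_left h2.1 hc.le
      _ ≤ f N := h1.1
  · calc f N ≤ C * g N := h1.2
      _ ≤ C * (C' * k N) := mul_le_mul_of_nonneg_left h2.2 hC.le
      _ = C * C' * k N := by ring

/-- equality of growth types -/
def growthSetoid : Setoid Rate where
  r f g := SameGrowth f.1 g.1
  iseqv := ⟨fun f => SameGrowth.refl f.1, fun h => h.symm, fun h h' => h.trans h'⟩

/-- the index set `{1, 2, 3, ...}` -/
def idxN : Set ℤ := {n | 1 ≤ n}

/-- the index set `ℤ` -/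
def idxZ : Set ℤ := Set.univ

/-- The sequence `p`, indexed by `I`, is `f`-distorted. -/
def Distorted {X : Type} [MetricSpace X] (I : Set ℤ) (p : I → X) (f : ℕ → ℝ) : Prop :=
  ∃ (A B : ℝ) (N₀ : ℕ), 0 < A ∧ 0 < B ∧ 1 ≤ N₀ ∧ ∀ m n : I, N₀ ≤ ((n : ℤ) - m).natAbs →
    A * f ((n : ℤ) - m).natAbs ≤ dist (p n) (p m) ∧
    dist (p n) (p m) ≤ B * f ((n : ℤ) - m).natAbs

/-- The `I`-indexed sequence distortion spectrum of `X`: the set of growth types of the rate
functions realizable in `X` with index set `I`. -/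
def spectrum (I : Set ℤ) (X : Type) [MetricSpace X] : Set (Quotient growthSetoid) :=
  {c | ∃ f : Rate, Quotient.mk growthSetoid f = c ∧ ∃ p : I → X, Distorted I p f.1}

/-- Any two points are joined by an isometric copy of an interval. -/
def Geodesic (X : Type) [MetricSpace X] : Prop :=
  ∀ x y : X, ∃ γ : ℝ → X, γ 0 = x ∧ γ (dist x y) = y ∧
    ∀ s t, 0 ≤ s → s ≤ dist x y → 0 ≤ t → t ≤ dist x y → dist (γ s) (γ t) = |s - t|

/-! ### Asymptotic cones -/

/-- scales: positive reals `r i → ∞` -/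
structure Scale where
  /-- the scales -/
  r : ℕ → ℝ
  pos : ∀ i, 0 < r i
  tends : Tendsto r atTop atTop

/-- Sequences of points at bounded rescaled distance from the base points. -/
def PreCone (X : Type) [MetricSpace X] (_ω : Ultrafilter ℕ) (x : ℕ → X) (r : Scale) : Type :=
  {u : ℕ → X // ∃ C : ℝ, ∀ i, dist (u i) (x i) ≤ C * r.r i}

section
variable {X : Type} [MetricSpace X] {ω : Ultrafilter ℕ} {x : ℕ → X} {r : Scale}

/-- the distance of the asymptotic cone: the ultralimit of the rescaled distances -/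
noncomputable def cdist (u v : PreCone X ω x r) : ℝ :=
  limUnder (ω : Filter ℕ) (fun i => dist (u.1 i) (v.1 i) / r.r i)

theorem cdist_tendsto (u v : PreCone X ω x r) :
    Tendsto (fun i => dist (u.1 i) (v.1 i) / r.r i) ω (𝓝 (cdist u v)) := by
  apply tendsto_nhds_limUnder
  obtain ⟨C, hC⟩ := u.2
  obtain ⟨D, hD⟩ := v.2
  have hb : ∀ i, dist (u.1 i) (v.1 i) / r.r i ∈ Set.Icc (0 : ℝ) (C + D) := by
    intro i
    have hp := r.pos i
    refine ⟨by positivity, ?_⟩
    rw [div_le_iff₀ hp]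
    have := dist_triangle_right (u.1 i) (v.1 i) (x i)
    have h1 := hC i
    have h2 := hD i
    linarith
  have hc : IsCompact (Set.Icc (0 : ℝ) (C + D)) := isCompact_Icc
  rw [isCompact_iff_ultrafilter_le_nhds] at hc
  obtain ⟨L, _, hL⟩ := hc (ω.map fun i => dist (u.1 i) (v.1 i) / r.r i) (by
    rw [Filter.le_principal_iff]
    exact Filter.mem_map.2 (Filter.univ_mem' hb))
  exact ⟨L, hL⟩

noncomputable instance : PseudoMetricSpace (PreCone X ω x r) where
  dist := cdist
  dist_self u := by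
    refine tendsto_nhds_unique (cdist_tendsto u u) ?_
    simp
  dist_comm u v := by
    refine tendsto_nhds_unique (cdist_tendsto u v) ?_
    have := cdist_tendsto v u
    simpa only [dist_comm] using this
  dist_triangle u v w := by
    refine le_of_tendsto_of_tendsto' (cdist_tendsto u w)
      ((cdist_tendsto u v).add (cdist_tendsto v w)) fun i => ?_
    rw [← add_div]
    exact div_le_div_of_nonneg_right (dist_triangle _ _ _) (r.pos i).le

theorem dist_eq_cdist (u v : PreCone X ω x r) : dist u v = cdist u v := rfl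

end

/-- The asymptotic cone `Cone_ω(X, (x_i), (r_i))`. -/
abbrev ACone (X : Type) [MetricSpace X] (ω : Ultrafilter ℕ) (x : ℕ → X) (r : Scale) : Type :=
  SeparationQuotient (PreCone X ω x r)

/-- `A` and `B` are bi-Lipschitz equivalent. -/
def BiLip (A B : Type) [MetricSpace A] [MetricSpace B] : Prop :=
  ∃ (e : A ≃ B) (L : ℝ), ∀ a b, dist (e a) (e b) ≤ L * dist a b ∧ dist a b ≤ L * dist (e a) (e b)

/-- The hypothesis of the question: all asymptotic cones of `X` and `Y`, for all base points, all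
scales and all non-principal ultrafilters, are bi-Lipschitz equivalent. -/
def SameCones (X Y : Type) [MetricSpace X] [MetricSpace Y] : Prop :=
  ∀ (ω : Ultrafilter ℕ) (r : Scale) (x : ℕ → X) (y : ℕ → Y), (∀ n : ℕ, ω ≠ pure n) →
    BiLip (ACone X ω x r) (ACone Y ω y r)

end Pool.Agent.Q142.Cone
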