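import Pool.Agent.Q142.Cone.Tree
import Pool.Agent.Q142.Cone.Defs

set_option autoImplicit false

open Filter Topology Cardinal

namespace Pool.Agent.Q142.Cone

/-- geodesic hyperbolic spaces with uniform branching -/
structure Good (X : Type) [MetricSpace X] : Prop where
  nonempty : Nonempty X
  between : ∀ (x y : X) (t : ℝ), 0 ≤ t → t ≤ dist x y →
    ∃ z, dist x z = t ∧ dist z y = dist x y - t
  hyp : ∃ δ : ℝ, ∀ x y z w : X,
    dist x z + dist y w ≤ max (dist x y + dist z w) (dist x w + dist y z) + δ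
  branch : ∃ C : ℕ → ℝ, ∀ (b : X) (t : ℝ) (k : ℕ), 0 ≤ t → ∃ z : (Fin k → Bool) → X,
    (∀ s, |dist b (z s) - t| ≤ C k) ∧ ∀ s s', s ≠ s' → 2 * t - C k ≤ dist (z s) (z s')
  card : #X ≤ 𝔠

section
variable {X : Type} [MetricSpace X] {ω : Ultrafilter ℕ} {x : ℕ → X} {r : Scale}

theorem nonprincipal_le (hω : ∀ n : ℕ, ω ≠ pure n) : (ω : Filter ℕ) ≤ atTop := by
  rw [← Nat.cofinite_eq_atTop]
  rcases ω.le_cofinite_or_eq_pure with h | ⟨n, h⟩
  · exact h
  · exact absurd h (hω n)

/-- the class of a bounded sequence -/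
noncomputable def mkc (u : PreCone X ω x r) : ACone X ω x r := SeparationQuotient.mk u

theorem dist_mkc (u v : PreCone X ω x r) : dist (mkc u) (mkc v) = cdist u v :=
  SeparationQuotient.dist_mk u v

theorem exists_mkc (a : ACone X ω x r) : ∃ u, mkc u = a := SeparationQuotient.surjective_mk a

/-- build a point of the pre-cone from a point near another one -/
def near (u : PreCone X ω x r) (v : ℕ → X) (C : ℝ) (h : ∀ i, dist (u.1 i) (v i) ≤ C * r.r i) :
    PreCone X ω x r :=
  ⟨v, by
    obtain ⟨D, hD⟩ := u.2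
    refine ⟨C + D, fun i => ?_⟩
    have h1 := dist_triangle_left (v i) (x i) (u.1 i)
    have h2 := h i
    have h3 := hD i
    rw [add_mul]
    linarith⟩

theorem cone_complete (hω : (ω : Filter ℕ) ≤ atTop) : CompleteSpace (PreCone X ω x r) := by
  classical
  refine Metric.complete_of_convergent_controlled_sequences (fun n => (1 / 2 : ℝ) ^ n)
    (fun n => by positivity) fun u hu => ?_
  let P : ℕ → ℕ → Prop := fun i N => ∀ n ≤ N, ∀ m ≤ N, n ≤ m →
    dist ((u n).1 i) ((u m).1 i) ≤ (1 / 2 : ℝ) ^ n * r.r i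
  have hP0 : ∀ i, P i 0 := by
    intro i n hn m hm _
    have h1 : n = 0 := by omega
    have h2 : m = 0 := by omega
    subst h1; subst h2
    rw [dist_self]
    have := r.pos i
    positivity
  have hPev : ∀ N, ∀ᶠ i in (ω : Filter ℕ), P i N := by
    intro N
    have h1 : ∀ n ≤ N, ∀ m ≤ N, ∀ᶠ i in (ω : Filter ℕ), n ≤ m →
        dist ((u n).1 i) ((u m).1 i) ≤ (1 / 2 : ℝ) ^ n * r.r i := by
      intro n _ m _
      by_cases hnm : n ≤ m
      · have h2 : cdist (u n) (u m) < (1 / 2 : ℝ) ^ n := hu n n m le_rfl hnm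
        filter_upwards [(cdist_tendsto (u n) (u m)).eventually (gt_mem_nhds h2)] with i hi _
        rw [div_lt_iff₀ (r.pos i)] at hi
        exact hi.le
      · exact Eventually.of_forall fun i h => absurd h hnm
    have h2 : ∀ᶠ i in (ω : Filter ℕ), ∀ n ∈ Set.Iic N, ∀ m ∈ Set.Iic N, n ≤ m →
        dist ((u n).1 i) ((u m).1 i) ≤ (1 / 2 : ℝ) ^ n * r.r i := by
      rw [Filter.eventually_all_finite (Set.finite_Iic N)]
      intro n hn
      rw [Filter.eventually_all_finite (Set.finite_Iic N)]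
      intro m hm
      exact h1 n hn m hm
    filter_upwards [h2] with i hi n hn m hm hnm
    exact hi n hn m hm hnm
  let k : ℕ → ℕ := fun i => Nat.findGreatest (P i) i
  have hk : ∀ i, P i (k i) := fun i => Nat.findGreatest_spec (Nat.zero_le i) (hP0 i)
  let v : PreCone X ω x r := near (u 0) (fun i => (u (k i)).1 i) 1 (fun i => by
    have := hk i 0 (Nat.zero_le _) (k i) le_rfl (Nat.zero_le _)
    simpa using this)
  refine ⟨v, ?_⟩
  rw [tendsto_iff_dist_tendsto_zero]
  have hle : ∀ n, dist (u n) v ≤ (1 / 2 : ℝ) ^ n := by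
    intro n
    have h1 : cdist (u n) v ≤ (1 / 2 : ℝ) ^ n := by
      refine le_of_tendsto (cdist_tendsto (u n) v) ?_
      filter_upwards [hPev n, hω (eventually_ge_atTop n)] with i h2 h3
      have h4 : n ≤ k i := Nat.le_findGreatest h3 h2
      rw [div_le_iff₀ (r.pos i)]
      exact hk i n h4 (k i) le_rfl h4
    exact h1
  exact squeeze_zero (fun n => dist_nonneg) hle
    (tendsto_pow_atTop_nhds_zero_of_lt_one (by norm_num) (by norm_num))

theorem cone_between (hX : Good X) (a b : ACone X ω x r) (t : ℝ) (ht : 0 ≤ t)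
    (ht' : t ≤ dist a b) : ∃ z, dist a z = t ∧ dist z b = dist a b - t := by
  obtain ⟨u, rfl⟩ := exists_mkc a
  obtain ⟨v, rfl⟩ := exists_mkc b
  rw [dist_mkc] at ht' ⊢
  have h : ∀ i, ∃ z, dist (u.1 i) z = min (t * r.r i) (dist (u.1 i) (v.1 i)) ∧
      dist z (v.1 i) = dist (u.1 i) (v.1 i) - min (t * r.r i) (dist (u.1 i) (v.1 i)) :=
    fun i => hX.between _ _ _ (le_min (mul_nonneg ht (r.pos i).le) dist_nonneg) (min_le_right _ _)
  choose z hz1 hz2 using h
  let w : PreCone X ω x r := near u z t (fun i => by rw [hz1]; exact min_le_left _ _)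
  have hl := cdist_tendsto u v
  have h1 : cdist u w = t := by
    refine tendsto_nhds_unique (cdist_tendsto u w) ?_
    have h2 : Tendsto (fun i => min t (dist (u.1 i) (v.1 i) / r.r i)) ω (𝓝 (min t (cdist u v))) :=
      tendsto_const_nhds.min hl
    rw [min_eq_left ht'] at h2
    refine h2.congr fun i => ?_
    change _ = dist (u.1 i) (z i) / r.r i
    rw [hz1]
    have hp := r.pos i
    rw [← min_div_div_right hp.le, mul_div_cancel_right₀ _ hp.ne']
  have h2 : cdist w v = cdist u v - t := by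
    refine tendsto_nhds_unique (cdist_tendsto w v) ?_
    have h3 := hl.sub (cdist_tendsto u w)
    rw [h1] at h3
    refine h3.congr fun i => ?_
    change dist (u.1 i) (v.1 i) / r.r i - dist (u.1 i) (z i) / r.r i = dist (z i) (v.1 i) / r.r i
    rw [hz1, hz2, sub_div]
  exact ⟨mkc w, by rw [dist_mkc, h1], by rw [dist_mkc, h2]⟩

theorem cone_four (hω : (ω : Filter ℕ) ≤ atTop) (hX : Good X) : Four (ACone X ω x r) := by
  intro a b c d
  obtain ⟨a, rfl⟩ := exists_mkc a
  obtain ⟨b, rfl⟩ := exists_mkc b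
  obtain ⟨c, rfl⟩ := exists_mkc c
  obtain ⟨d, rfl⟩ := exists_mkc d
  simp only [dist_mkc]
  obtain ⟨δ, hδ⟩ := hX.hyp
  have hr : Tendsto (fun i => δ / r.r i) ω (𝓝 0) :=
    (tendsto_const_nhds.div_atTop (r.tends.mono_left hω))
  have h1 := ((cdist_tendsto a b).add (cdist_tendsto c d)).max
    ((cdist_tendsto a d).add (cdist_tendsto b c))
  have h2 := h1.add hr
  rw [add_zero] at h2
  refine le_of_tendsto_of_tendsto' ((cdist_tendsto a c).add (cdist_tendsto b d)) h2 fun i => ?_
  have hp := r.pos i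
  have h3 := hδ (a.1 i) (b.1 i) (c.1 i) (d.1 i)
  rw [← add_div, ← add_div, ← add_div, max_div_div_right hp.le, ← add_div]
  exact div_le_div_of_nonneg_right h3 hp.le

theorem cone_branch (hω : (ω : Filter ℕ) ≤ atTop) (hX : Good X) (b : ACone X ω x r) (l : ℝ)
    (hl : 0 < l) :
    ∃ z : ℝ → ACone X ω x r, (∀ j, dist b (z j) = l) ∧
      ∀ j k, j ≠ k → dist (z j) (z k) = 2 * l := by
  classical
  obtain ⟨b, rfl⟩ := exists_mkc b
  obtain ⟨C, hC⟩ := hX.branch
  have hC0 : ∀ k, 0 ≤ C k := by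
    intro k
    obtain ⟨p⟩ := hX.nonempty
    obtain ⟨z, hz, _⟩ := hC p 0 k le_rfl
    exact (abs_nonneg _).trans (hz (fun _ => true))
  let P : ℕ → ℕ → Prop := fun i N => C N ≤ C 0 + Real.sqrt (r.r i)
  have hP0 : ∀ i, P i 0 := fun i => le_add_of_nonneg_right (Real.sqrt_nonneg _)
  let k : ℕ → ℕ := fun i => Nat.findGreatest (P i) i
  have hk : ∀ i, C (k i) ≤ C 0 + Real.sqrt (r.r i) :=
    fun i => Nat.findGreatest_spec (P := P i) (Nat.zero_le i) (hP0 i)
  have hsq : Tendsto (fun i => Real.sqrt (r.r i)) ω atTop :=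
    (Real.tendsto_sqrt_atTop.comp r.tends).mono_left hω
  have hkt : ∀ N, ∀ᶠ i in (ω : Filter ℕ), N ≤ k i := by
    intro N
    filter_upwards [hsq.eventually_ge_atTop (C N - C 0), hω (eventually_ge_atTop N)] with i h1 h2
    refine Nat.le_findGreatest h2 ?_
    change C N ≤ C 0 + Real.sqrt (r.r i)
    linarith
  have hCr : Tendsto (fun i => C (k i) / r.r i) ω (𝓝 0) := by
    have h1 : Tendsto (fun i => C 0 / r.r i + 1 / Real.sqrt (r.r i)) ω (𝓝 (0 + 0)) :=
      (tendsto_const_nhds.div_atTop (r.tends.mono_left hω)).add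
        (tendsto_const_nhds.div_atTop hsq)
    rw [add_zero] at h1
    refine squeeze_zero (fun i => div_nonneg (hC0 _) (r.pos i).le) (fun i => ?_) h1
    have hp := r.pos i
    have hs : 0 < Real.sqrt (r.r i) := Real.sqrt_pos.2 hp
    have h2 : (1 : ℝ) / Real.sqrt (r.r i) = Real.sqrt (r.r i) / r.r i := by
      rw [div_eq_div_iff hs.ne' hp.ne', one_mul, Real.mul_self_sqrt hp.le]
    rw [h2, ← add_div]
    exact div_le_div_of_nonneg_right (hk i) hp.le
  have hz := fun i => hC (b.1 i) (l * r.r i) (k i) (mul_nonneg hl.le (r.pos i).le)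
  choose z hz1 hz2 using hz
  -- a bound for `C (k i) / r i`
  have hbd : ∃ D : ℝ, ∀ i, C (k i) ≤ D * r.r i := by
    obtain ⟨i0, hi0⟩ := (r.tends.eventually_ge_atTop 1).exists_forall_of_atTop
    have hmin : ∃ m : ℝ, 0 < m ∧ ∀ i, m ≤ r.r i := by
      have h1 : ∃ m : ℝ, 0 < m ∧ ∀ i < i0, m ≤ r.r i := by
        clear hi0
        induction i0 with
        | zero => exact ⟨1, one_pos, fun i hi => absurd hi (Nat.not_lt_zero i)⟩
        | succ n ih =>
          obtain ⟨m, hm, h⟩ := ih
          refine ⟨min m (r.r n), lt_min hm (r.pos n), fun i hi => ?_⟩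
          rcases Nat.lt_succ_iff_lt_or_eq.1 hi with h2 | h2
          · exact (min_le_left _ _).trans (h i h2)
          · subst h2; exact min_le_right _ _
      obtain ⟨m, hm, h⟩ := h1
      refine ⟨min m 1, lt_min hm one_pos, fun i => ?_⟩
      rcases lt_or_ge i i0 with h2 | h2
      · exact (min_le_left _ _).trans (h i h2)
      · exact (min_le_right _ _).trans (hi0 i h2)
    obtain ⟨m, hm, hmr⟩ := hmin
    refine ⟨C 0 / m + 1 / Real.sqrt m, fun i => ?_⟩
    have hp := r.pos i
    have hs : 0 < Real.sqrt (r.r i) := Real.sqrt_pos.2 hp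
    have hsm : 0 < Real.sqrt m := Real.sqrt_pos.2 hm
    have h1 : C 0 ≤ C 0 / m * r.r i := by
      rw [div_mul_eq_mul_div, le_div_iff₀ hm]
      exact mul_le_mul_of_nonneg_left (hmr i) (hC0 0)
    have h2 : Real.sqrt (r.r i) ≤ 1 / Real.sqrt m * r.r i := by
      rw [div_mul_eq_mul_div, one_mul, le_div_iff₀ hsm]
      calc Real.sqrt (r.r i) * Real.sqrt m ≤ Real.sqrt (r.r i) * Real.sqrt (r.r i) :=
            mul_le_mul_of_nonneg_left (Real.sqrt_le_sqrt (hmr i)) hs.le
        _ = r.r i := Real.mul_self_sqrt hp.le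
    have h3 := hk i
    rw [add_mul]
    linarith
  obtain ⟨D, hD⟩ := hbd
  have hcard : #ℝ = #(ℕ → Bool) := by
    rw [Cardinal.mk_real]; simp
  obtain ⟨e⟩ := Cardinal.eq.1 hcard
  let v : ℝ → PreCone X ω x r := fun j => near b (fun i => z i (fun q => e j q)) (l + D)
    (fun i => by
      have h1 := hz1 i (fun q => e j q)
      have h2 := (abs_le.1 h1).2
      have h3 := hD i
      rw [add_mul]
      linarith)
  have hb : ∀ j, cdist b (v j) = l := by
    intro j
    refine tendsto_nhds_unique (cdist_tendsto b (v j)) ?_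
    rw [tendsto_iff_dist_tendsto_zero]
    refine squeeze_zero (fun i => dist_nonneg) (fun i => ?_) hCr
    have hp := r.pos i
    change dist (dist (b.1 i) (z i (fun q => e j q)) / r.r i) l ≤ _
    rw [Real.dist_eq]
    have h1 : dist (b.1 i) (z i (fun q => e j q)) / r.r i - l =
        (dist (b.1 i) (z i (fun q => e j q)) - l * r.r i) / r.r i := by
      field_simp
    rw [h1, abs_div, abs_of_pos hp]
    exact div_le_div_of_nonneg_right (hz1 i _) hp.le
  refine ⟨fun j => mkc (v j), fun j => by rw [dist_mkc, hb], fun j j' hjj => ?_⟩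
  rw [dist_mkc]
  apply le_antisymm
  · have h1 : dist (v j) (v j') ≤ dist (v j) b + dist b (v j') := dist_triangle _ _ _
    rw [dist_comm (v j) b] at h1
    simp only [dist_eq_cdist, hb] at h1
    linarith
  · have h1 : Tendsto (fun i => 2 * l - C (k i) / r.r i) ω (𝓝 (2 * l - 0)) :=
      tendsto_const_nhds.sub hCr
    rw [sub_zero] at h1
    refine le_of_tendsto_of_tendsto h1 (cdist_tendsto (v j) (v j')) ?_
    have hne : e j ≠ e j' := fun h => hjj (e.injective h)
    obtain ⟨q, hq⟩ := Function.ne_iff.1 hne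
    filter_upwards [hkt (q + 1)] with i hi
    have hp := r.pos i
    change 2 * l - C (k i) / r.r i ≤ dist (z i (fun q => e j q)) (z i (fun q => e j' q)) / r.r i
    rw [le_div_iff₀ hp, sub_mul, div_mul_cancel₀ _ hp.ne']
    have h2 := hz2 i (fun q => e j q) (fun q => e j' q) (fun h => hq (by
      have := congrFun h ⟨q, by omega⟩
      exact this))
    linarith

theorem cone_utree (hω : ∀ n : ℕ, ω ≠ pure n) (hX : Good X) : UTree (ACone X ω x r) where
  complete := by
    have := cone_complete (X := X) (x := x) (r := r) (nonprincipal_le hω)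
    infer_instance
  nonempty := ⟨mkc ⟨x, 0, fun i => by simp⟩⟩
  between := fun a b t h h' => cone_between hX a b t h h'
  four := cone_four (nonprincipal_le hω) hX
  branch := fun b l hl => cone_branch (nonprincipal_le hω) hX b l hl
  card := by
    have h1 : #(ACone X ω x r) ≤ #(PreCone X ω x r) :=
      Cardinal.mk_le_of_surjective SeparationQuotient.surjective_mk
    have h2 : #(PreCone X ω x r) ≤ #(ℕ → X) :=
      Cardinal.mk_le_of_injective (f := fun u : PreCone X ω x r => u.1) Subtype.val_injective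
    have h3 : #(ℕ → X) ≤ 𝔠 := by
      rw [← Cardinal.power_def, Cardinal.mk_nat]
      calc #X ^ ℵ₀ ≤ 𝔠 ^ ℵ₀ := Cardinal.power_le_power_right hX.card
        _ = 𝔠 := Cardinal.continuum_power_aleph0
    exact h1.trans (h2.trans h3)

end

theorem sameCones {X Y : Type} [MetricSpace X] [MetricSpace Y] (hX : Good X) (hY : Good Y) :
    SameCones X Y := by
  intro ω r x y hω
  obtain ⟨e⟩ := (cone_utree (x := x) (r := r) hω hX).iso (cone_utree (x := y) (r := r) hω hY)
  refine ⟨e.toEquiv, 1, fun a b => ?_⟩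
  have h : dist (e a) (e b) = dist a b := e.dist_eq a b
  have h' : dist (e.toEquiv a) (e.toEquiv b) = dist a b := h
  rw [h', one_mul]
  exact ⟨le_rfl, le_rfl⟩

end Pool.Agent.Q142.Cone
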