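import Pool.Agent.Q142.Cone.Good

set_option autoImplicit false

open Filter Topology Cardinal

namespace Pool.Agent.Q142.Cone

open UpperHalfPlane (coe_im)

/-- the hyperbolic plane (upper half-plane) -/
abbrev HP : Type := UpperHalfPlane

namespace Hyp

theorem dist_formula (z w : HP) :
    Real.cosh (dist z w) = 1 + ((z.re - w.re) ^ 2 + (z.im - w.im) ^ 2) / (2 * z.im * w.im) := by
  rw [UpperHalfPlane.cosh_dist, Complex.dist_eq_re_im, Real.sq_sqrt (by positivity)]
  rfl

/-- the half circle geodesic of center `c` and radius `ρ` -/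
noncomputable def circ (c ρ : ℝ) (hρ : 0 < ρ) (s : ℝ) : HP :=
  UpperHalfPlane.mk ⟨c + ρ * (Real.sinh s / Real.cosh s), ρ / Real.cosh s⟩
    (div_pos hρ (Real.cosh_pos s))

theorem circ_re (c ρ : ℝ) (hρ : 0 < ρ) (s : ℝ) :
    (circ c ρ hρ s).re = c + ρ * (Real.sinh s / Real.cosh s) := rfl

theorem circ_im (c ρ : ℝ) (hρ : 0 < ρ) (s : ℝ) :
    (circ c ρ hρ s).im = ρ / Real.cosh s := rfl

theorem eq_of_cosh_eq {a b : ℝ} (ha : 0 ≤ a) (hb : 0 ≤ b) (h : Real.cosh a = Real.cosh b) :
    a = b := by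
  have h1 := Real.cosh_le_cosh.1 h.le
  have h2 := Real.cosh_le_cosh.1 h.ge
  rw [abs_of_nonneg ha, abs_of_nonneg hb] at h1 h2
  linarith

theorem circ_isometry (c ρ : ℝ) (hρ : 0 < ρ) (s t : ℝ) :
    dist (circ c ρ hρ s) (circ c ρ hρ t) = |s - t| := by
  apply eq_of_cosh_eq dist_nonneg (abs_nonneg _)
  rw [dist_formula, circ_re, circ_re, circ_im, circ_im, Real.cosh_abs, Real.cosh_sub]
  have h1 := Real.cosh_pos s
  have h2 := Real.cosh_pos t
  have h3 := Real.cosh_sq s
  have h4 := Real.cosh_sq t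
  field_simp
  linear_combination (-ρ ^ 2 * Real.cosh t ^ 2) * h3 + (-ρ ^ 2 * Real.cosh s ^ 2) * h4

/-- geodesics from isometric embeddings of the line -/
theorem geo_of_line (φ : ℝ → HP) (hφ : ∀ s t, dist (φ s) (φ t) = |s - t|) (a b : ℝ) :
    ∃ γ : ℝ → HP, γ 0 = φ a ∧ γ (dist (φ a) (φ b)) = φ b ∧
      ∀ s t, 0 ≤ s → s ≤ dist (φ a) (φ b) → 0 ≤ t → t ≤ dist (φ a) (φ b) →
        dist (γ s) (γ t) = |s - t| := by
  rcases le_total a b with h | h
  · refine ⟨fun s => φ (a + s), by simp, ?_, fun s t _ _ _ _ => ?_⟩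
    · simp only
      rw [hφ, abs_of_nonpos (by linarith)]
      congr 1; ring
    · rw [hφ]; congr 1; ring
  · refine ⟨fun s => φ (a - s), by simp, ?_, fun s t _ _ _ _ => ?_⟩
    · simp only
      rw [hφ, abs_of_nonneg (by linarith)]
      congr 1; ring
    · rw [hφ, abs_sub_comm s t]; congr 1; ring

theorem on_circ (z : HP) (c ρ : ℝ) (hρ : 0 < ρ) (h : (z.re - c) ^ 2 + z.im ^ 2 = ρ ^ 2) :
    ∃ s, circ c ρ hρ s = z := by
  have hz := z.im_pos
  refine ⟨Real.arsinh ((z.re - c) / z.im), ?_⟩
  have hs : Real.sinh (Real.arsinh ((z.re - c) / z.im)) = (z.re - c) / z.im := Real.sinh_arsinh _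
  have hc : Real.cosh (Real.arsinh ((z.re - c) / z.im)) = ρ / z.im := by
    rw [Real.cosh_arsinh, Real.sqrt_eq_iff_mul_self_eq (by positivity) (by positivity)]
    field_simp
    linarith
  apply UpperHalfPlane.ext_re_im
  · rw [circ_re, hs, hc]
    field_simp
    ring
  · rw [circ_im, hc]
    field_simp

theorem geodesic : Geodesic HP := by
  intro z w
  by_cases hre : z.re = w.re
  · have hiso := UpperHalfPlane.isometry_vertical_line z.re
    have h1 : ∀ u : HP, u.re = z.re →
        UpperHalfPlane.mk ⟨z.re, Real.exp (Real.log u.im)⟩ (Real.exp_pos _) = u := by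
      intro u hu
      apply UpperHalfPlane.ext_re_im
      · exact hu.symm
      · change Real.exp (Real.log u.im) = u.im
        exact Real.exp_log u.im_pos
    have h2 := geo_of_line (fun y => UpperHalfPlane.mk ⟨z.re, Real.exp y⟩ (Real.exp_pos y))
      (fun s t => by rw [hiso.dist_eq, Real.dist_eq]) (Real.log z.im) (Real.log w.im)
    simp only [h1 z rfl, h1 w hre.symm] at h2
    exact h2
  · have hne : z.re - w.re ≠ 0 := sub_ne_zero.2 hre
    set c : ℝ := (z.re ^ 2 + z.im ^ 2 - w.re ^ 2 - w.im ^ 2) / (2 * (z.re - w.re)) with hc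
    have hpos : 0 < (z.re - c) ^ 2 + z.im ^ 2 := by
      have := z.im_pos
      positivity
    set ρ : ℝ := Real.sqrt ((z.re - c) ^ 2 + z.im ^ 2) with hρ
    have hρ0 : 0 < ρ := Real.sqrt_pos.2 hpos
    have hρ2 : ρ ^ 2 = (z.re - c) ^ 2 + z.im ^ 2 := Real.sq_sqrt hpos.le
    have hc2 : c * (2 * (z.re - w.re)) = z.re ^ 2 + z.im ^ 2 - w.re ^ 2 - w.im ^ 2 := by
      rw [hc]; field_simp
    obtain ⟨a, ha⟩ := on_circ z c ρ hρ0 hρ2.symm
    obtain ⟨b, hb⟩ := on_circ w c ρ hρ0 (by rw [hρ2]; nlinarith)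
    have h2 := geo_of_line (circ c ρ hρ0) (circ_isometry c ρ hρ0) a b
    rw [ha, hb] at h2
    exact h2

/-- half of the hyperbolic sine of the half distance -/
noncomputable def sh (z w : HP) : ℝ := Real.sinh (dist z w / 2)

theorem sh_nonneg (z w : HP) : 0 ≤ sh z w :=
  Real.sinh_nonneg_iff.2 (div_nonneg dist_nonneg zero_le_two)

/-- Ptolemy's inequality in the hyperbolic plane -/
theorem ptolemy (a b c d : HP) : sh a c * sh b d ≤ sh a b * sh c d + sh a d * sh b c := by
  have h := EuclideanGeometry.mul_dist_le_mul_dist_add_mul_dist (a : ℂ) (b : ℂ) (c : ℂ) (d : ℂ)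
  unfold sh
  simp only [UpperHalfPlane.sinh_half_dist]
  have ha := a.im_pos
  have hb := b.im_pos
  have hc := c.im_pos
  have hd := d.im_pos
  have e : ∀ x y : ℝ, 0 < x → 0 < y → Real.sqrt (x * y) = Real.sqrt x * Real.sqrt y :=
    fun x y hx _ => Real.sqrt_mul hx.le y
  rw [e _ _ ha hc, e _ _ hb hd, e _ _ ha hb, e _ _ hc hd, e _ _ ha hd, e _ _ hb hc]
  have sa := Real.sqrt_pos.2 ha
  have sb := Real.sqrt_pos.2 hb
  have sc := Real.sqrt_pos.2 hc
  have sd := Real.sqrt_pos.2 hd
  have e1 : dist (a : ℂ) c / (2 * (Real.sqrt a.im * Real.sqrt c.im)) *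
      (dist (b : ℂ) d / (2 * (Real.sqrt b.im * Real.sqrt d.im))) =
      (dist (a : ℂ) c * dist (b : ℂ) d) /
        (4 * (Real.sqrt a.im * Real.sqrt b.im * Real.sqrt c.im * Real.sqrt d.im)) := by
    field_simp; ring
  have e2 : dist (a : ℂ) b / (2 * (Real.sqrt a.im * Real.sqrt b.im)) *
      (dist (c : ℂ) d / (2 * (Real.sqrt c.im * Real.sqrt d.im))) +
      dist (a : ℂ) d / (2 * (Real.sqrt a.im * Real.sqrt d.im)) *
      (dist (b : ℂ) c / (2 * (Real.sqrt b.im * Real.sqrt c.im))) =
      (dist (a : ℂ) b * dist (c : ℂ) d + dist (b : ℂ) c * dist (a : ℂ) d) /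
        (4 * (Real.sqrt a.im * Real.sqrt b.im * Real.sqrt c.im * Real.sqrt d.im)) := by
    field_simp; ring
  rw [e1, e2]
  exact div_le_div_of_nonneg_right h (by positivity)

theorem sinh_lower {u : ℝ} (hu : 1 / 2 ≤ u) : Real.exp u / 4 ≤ Real.sinh u := by
  rw [Real.sinh_eq]
  have h1 : Real.exp (-u) ≤ Real.exp u / 2 := by
    have h2 : 2 ≤ Real.exp (2 * u) := by
      have := Real.add_one_le_exp (2 * u)
      linarith
    have h3 : Real.exp (2 * u) = Real.exp u / Real.exp (-u) := by
      rw [← Real.exp_sub]; congr 1; ring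
    rw [h3, le_div_iff₀ (Real.exp_pos _)] at h2
    linarith
  linarith

theorem sinh_upper {u : ℝ} : Real.sinh u ≤ Real.exp u / 2 := by
  rw [Real.sinh_eq]
  have := Real.exp_pos (-u)
  linarith

theorem hyperbolic (x y z w : HP) :
    dist x z + dist y w ≤ max (dist x y + dist z w) (dist x w + dist y z) + 2 * Real.log 8 := by
  set M := max (dist x y + dist z w) (dist x w + dist y z) with hM
  have hM1 : dist x y + dist z w ≤ M := le_max_left _ _
  have hM2 : dist x w + dist y z ≤ M := le_max_right _ _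
  have hlog : 1 ≤ Real.log 8 := by
    rw [Real.le_log_iff_exp_le (by norm_num)]
    have := Real.exp_one_lt_d9
    linarith
  by_cases ha : dist x z < 1
  · have h1 := dist_triangle4 y x z w
    rw [dist_comm y x] at h1
    linarith
  by_cases hb : dist y w < 1
  · have h1 := dist_triangle4 x y w z
    rw [dist_comm w z] at h1
    linarith
  push Not at ha hb
  have hP := ptolemy x y z w
  unfold sh at hP
  have h1 : Real.exp (dist x z / 2) / 4 ≤ Real.sinh (dist x z / 2) := sinh_lower (by linarith)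
  have h2 : Real.exp (dist y w / 2) / 4 ≤ Real.sinh (dist y w / 2) := sinh_lower (by linarith)
  have h3 : Real.exp (dist x z / 2) / 4 * (Real.exp (dist y w / 2) / 4) ≤
      Real.sinh (dist x z / 2) * Real.sinh (dist y w / 2) :=
    mul_le_mul h1 h2 (by positivity) (le_trans (by positivity) h1)
  have hs : ∀ a b : HP, 0 ≤ Real.sinh (dist a b / 2) := fun a b => sh_nonneg a b
  have hprod : ∀ a b c d : HP, Real.sinh (dist a b / 2) * Real.sinh (dist c d / 2) ≤
      Real.exp ((dist a b + dist c d) / 2) / 4 := by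
    intro a b c d
    calc Real.sinh (dist a b / 2) * Real.sinh (dist c d / 2) ≤
        (Real.exp (dist a b / 2) / 2) * (Real.exp (dist c d / 2) / 2) :=
          mul_le_mul sinh_upper sinh_upper (hs _ _) (by positivity)
      _ = Real.exp ((dist a b + dist c d) / 2) / 4 := by
          rw [add_div, Real.exp_add]; ring
  have h4 := hprod x y z w
  have h5 := hprod x w y z
  have h6 : Real.exp ((dist x y + dist z w) / 2) ≤ Real.exp (M / 2) :=
    Real.exp_le_exp.2 (by linarith)
  have h7 : Real.exp ((dist x w + dist y z) / 2) ≤ Real.exp (M / 2) :=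
    Real.exp_le_exp.2 (by linarith)
  have h8 : Real.exp ((dist x z + dist y w) / 2) ≤ 8 * Real.exp (M / 2) := by
    have e1 : Real.exp (dist x z / 2) / 4 * (Real.exp (dist y w / 2) / 4) =
        Real.exp ((dist x z + dist y w) / 2) / 16 := by
      rw [add_div, Real.exp_add]; ring
    rw [e1] at h3
    linarith
  have h9 : (8 : ℝ) * Real.exp (M / 2) = Real.exp (Real.log 8 + M / 2) := by
    rw [Real.exp_add, Real.exp_log (by norm_num)]
  rw [h9, Real.exp_le_exp] at h8
  linarith

theorem le_two_arsinh {x : ℝ} (hx : 0 < x) : Real.log (2 * x) ≤ Real.arsinh x := by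
  rw [Real.arsinh]
  apply Real.log_le_log (by positivity)
  have h1 : x ≤ Real.sqrt (1 + x ^ 2) := by
    rw [Real.le_sqrt hx.le (by positivity)]
    linarith
  linarith

/-- branches towards the boundary -/
noncomputable def br (b : HP) (t : ℝ) (j : ℝ) : HP :=
  UpperHalfPlane.mk ⟨b.re + b.im * j, b.im * Real.exp (-t)⟩
    (mul_pos b.im_pos (Real.exp_pos _))

theorem br_re (b : HP) (t j : ℝ) : (br b t j).re = b.re + b.im * j := rfl

theorem br_im (b : HP) (t j : ℝ) : (br b t j).im = b.im * Real.exp (-t) := rfl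

theorem dist_br_vert (b : HP) (t j : ℝ) : dist (br b 0 j) (br b t j) = |t| := by
  rw [UpperHalfPlane.dist_of_re_eq (by rw [br_re, br_re]), br_im, br_im, Real.dist_eq,
    Real.log_mul b.im_pos.ne' (Real.exp_pos _).ne', Real.log_mul b.im_pos.ne' (Real.exp_pos _).ne',
    Real.log_exp, Real.log_exp]
  congr 1; ring

theorem dist_br_lower (b : HP) (t j : ℝ) : |t| ≤ dist b (br b t j) := by
  have := UpperHalfPlane.dist_log_im_le b (br b t j)
  rw [br_im, Real.log_mul b.im_pos.ne' (Real.exp_pos _).ne', Real.log_exp, Real.dist_eq] at this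
  have e : Real.log b.im - (Real.log b.im + -t) = t := by ring
  rwa [e] at this

theorem dist_horiz (b : HP) (t j j' : ℝ) :
    dist (br b t j) (br b t j') = 2 * Real.arsinh (|j - j'| * Real.exp t / 2) := by
  rw [UpperHalfPlane.dist_eq, Complex.dist_eq_re_im]
  have hb := b.im_pos
  congr 2
  change Real.sqrt (((br b t j).re - (br b t j').re) ^ 2 +
    ((br b t j).im - (br b t j').im) ^ 2) / _ = _
  rw [br_re, br_re, br_im, br_im]
  have e1 : (b.re + b.im * j - (b.re + b.im * j')) ^ 2 +
      (b.im * Real.exp (-t) - b.im * Real.exp (-t)) ^ 2 = (b.im * (j - j')) ^ 2 := by ring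
  have e2 : b.im * Real.exp (-t) * (b.im * Real.exp (-t)) = (b.im * Real.exp (-t)) ^ 2 := by ring
  rw [e1, e2, Real.sqrt_sq_eq_abs, Real.sqrt_sq (by positivity), abs_mul, abs_of_pos hb,
    Real.exp_neg]
  have := Real.exp_pos t
  field_simp

theorem good : Good HP where
  nonempty := ⟨UpperHalfPlane.I⟩
  between := fun x y t ht ht' => by
    obtain ⟨γ, h1, h2, h3⟩ := geodesic x y
    refine ⟨γ t, ?_, ?_⟩
    · have := h3 0 t le_rfl dist_nonneg ht ht'
      rw [h1] at this
      rw [this, zero_sub, abs_neg, abs_of_nonneg ht]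
    · have := h3 t (dist x y) ht ht' dist_nonneg le_rfl
      rw [h2] at this
      rw [this, abs_of_nonpos (by linarith)]
      ring
  hyp := ⟨2 * Real.log 8, hyperbolic⟩
  branch := by
    refine ⟨fun k => 2 * Real.arsinh (Fintype.card (Fin k → Bool) : ℝ), fun b t k ht =>
      ⟨fun s => br b t ((Fintype.equivFin (Fin k → Bool) s : ℕ) : ℝ), fun s => ?_,
        fun s s' hs => ?_⟩⟩
    · set j : ℝ := ((Fintype.equivFin (Fin k → Bool) s : ℕ) : ℝ) with hj
      have hj0 : 0 ≤ j := Nat.cast_nonneg _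
      have hjc : j ≤ Fintype.card (Fin k → Bool) := by
        rw [hj]
        exact_mod_cast (Fintype.equivFin (Fin k → Bool) s).2.le
      have h1 := dist_br_lower b t j
      rw [abs_of_nonneg ht] at h1
      have h2 : dist b (br b 0 j) = 2 * Real.arsinh (|0 - j| * Real.exp 0 / 2) := by
        rw [← dist_horiz]
        congr 1
        apply UpperHalfPlane.ext_re_im
        · rw [br_re]; ring
        · rw [br_im]; simp
      have h3 := dist_triangle b (br b 0 j) (br b t j)
      rw [dist_br_vert, abs_of_nonneg ht, h2] at h3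
      have h4 : Real.arsinh (|0 - j| * Real.exp 0 / 2) ≤
          Real.arsinh (Fintype.card (Fin k → Bool) : ℝ) := by
        rw [Real.arsinh_le_arsinh, zero_sub, abs_neg, abs_of_nonneg hj0, Real.exp_zero]
        linarith
      rw [abs_of_nonneg (by linarith)]
      linarith
    · rw [dist_horiz]
      have hne : ((Fintype.equivFin (Fin k → Bool) s : ℕ) : ℤ) ≠
          ((Fintype.equivFin (Fin k → Bool) s' : ℕ) : ℤ) := by
        intro h
        apply hs
        apply (Fintype.equivFin (Fin k → Bool)).injective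
        apply Fin.ext
        exact_mod_cast h
      have h1 : (1 : ℝ) ≤ |((Fintype.equivFin (Fin k → Bool) s : ℕ) : ℝ) -
          ((Fintype.equivFin (Fin k → Bool) s' : ℕ) : ℝ)| := by
        have h2 : (1 : ℤ) ≤ |((Fintype.equivFin (Fin k → Bool) s : ℕ) : ℤ) -
          ((Fintype.equivFin (Fin k → Bool) s' : ℕ) : ℤ)| := Int.one_le_abs (sub_ne_zero.2 hne)
        exact_mod_cast h2
      have h3 : t ≤ Real.arsinh (|((Fintype.equivFin (Fin k → Bool) s : ℕ) : ℝ) -
          ((Fintype.equivFin (Fin k → Bool) s' : ℕ) : ℝ)| * Real.exp t / 2) := by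
        have h4 : Real.arsinh (Real.exp t / 2) ≤ Real.arsinh
            (|((Fintype.equivFin (Fin k → Bool) s : ℕ) : ℝ) -
            ((Fintype.equivFin (Fin k → Bool) s' : ℕ) : ℝ)| * Real.exp t / 2) := by
          rw [Real.arsinh_le_arsinh]
          have := Real.exp_pos t
          nlinarith
        have h5 := le_two_arsinh (x := Real.exp t / 2) (by positivity)
        rw [mul_div_cancel₀ _ two_ne_zero, Real.log_exp] at h5
        exact h5.trans h4
      have h6 : 0 ≤ Real.arsinh (Fintype.card (Fin k → Bool) : ℝ) := by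
        rw [Real.arsinh_nonneg_iff]; positivity
      linarith
  card := by
    have h1 : #HP ≤ #ℂ :=
      Cardinal.mk_le_of_injective (f := fun z : HP => (z : ℂ)) UpperHalfPlane.coe_injective
    rw [Cardinal.mk_complex] at h1
    exact h1

end Hyp

end Pool.Agent.Q142.Cone
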