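import Pool.Agent.Q142.Cone.BT

set_option autoImplicit false

open Filter Topology Cardinal

namespace Pool.Agent.Q142.Cone

section
variable {Y : Type} [MetricSpace Y]

/-- A discrete path with steps at most `J` in a tree passes within `J` of every point between its
endpoints. -/
theorem pass (hY : Four Y) (q : ℕ → Y) (J : ℝ) (hJ : ∀ n, dist (q n) (q (n + 1)) ≤ J) (N : ℕ)
    (c : Y) (hc : dist (q 0) c + dist c (q N) = dist (q 0) (q N)) :
    ∃ n ≤ N, dist (q n) c ≤ J := by
  have hJ0 : 0 ≤ J := dist_nonneg.trans (hJ 0)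
  by_contra hcon
  push Not at hcon
  have key : ∀ n ≤ N, 0 < gp c (q 0) (q n) := by
    intro n
    induction n with
    | zero =>
      intro _
      have h1 := hcon 0 (Nat.zero_le _)
      unfold gp
      rw [dist_self, dist_comm c]
      linarith
    | succ n ih =>
      intro hn
      have h1 := ih (by omega)
      have h2 := gp_ultra hY c (q 0) (q n) (q (n + 1))
      have h3 := hcon n (by omega)
      have h4 := hcon (n + 1) hn
      have h5 := hJ n
      have h6 : 0 < gp c (q n) (q (n + 1)) := by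
        unfold gp
        rw [dist_comm c, dist_comm c]
        linarith
      exact (lt_min h1 h6).trans_le h2
  have h1 := key N le_rfl
  unfold gp at h1
  rw [dist_comm c (q 0)] at h1
  linarith

/-- In a geodesic tree the distance along a distorted sequence grows linearly. -/
theorem linear_growth (hY : Four Y) (hg : Geodesic Y) (q : ℕ → Y) (f : ℕ → ℝ) (hf : IsRate f)
    (A B : ℝ) (N₀ : ℕ) (hA : 0 < A) (hN₀ : 1 ≤ N₀)
    (hq : ∀ m n : ℕ, m + N₀ ≤ n →
      A * f (n - m) ≤ dist (q n) (q m) ∧ dist (q n) (q m) ≤ B * f (n - m)) :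
    ∃ K : ℝ, 0 < K ∧ ∀ N : ℕ, (N : ℝ) ≤ K * (dist (q 0) (q N) + 3) := by
  set J : ℝ := B * f (N₀ + 1) + B * f N₀ with hJdef
  have hJ : ∀ n, dist (q n) (q (n + 1)) ≤ J := by
    intro n
    have h1 := (hq n (n + 1 + N₀) (by omega)).2
    have h2 := (hq (n + 1) (n + 1 + N₀) (by omega)).2
    have e1 : n + 1 + N₀ - n = N₀ + 1 := by omega
    have e2 : n + 1 + N₀ - (n + 1) = N₀ := by omega
    rw [e1] at h1
    rw [e2] at h2
    have h3 := dist_triangle_left (q n) (q (n + 1)) (q (n + 1 + N₀))
    linarith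
  have hJ0 : 0 ≤ J := dist_nonneg.trans (hJ 0)
  obtain ⟨K0, hK0, hK0'⟩ := hf.unbounded ((2 * J + 1) / A)
  set K : ℕ := max K0 N₀ with hK
  have hKf : 2 * J + 1 < A * f K := by
    have h1 := hf.mono K0 K hK0 (le_max_left _ _)
    rw [div_lt_iff₀ hA] at hK0'
    nlinarith
  have hclose : ∀ m n : ℕ, m ≤ n → dist (q n) (q m) ≤ 2 * J + 1 → n < m + K := by
    intro m n hmn hd
    by_contra hlt
    push Not at hlt
    have hN : m + N₀ ≤ n := by
      have := le_max_right K0 N₀
      omega
    have h1 := (hq m n hN).1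
    have h2 := hf.mono K (n - m) (by
      have := le_max_right K0 N₀
      omega) (by omega)
    nlinarith
  have hclose' : ∀ m n : ℕ, dist (q n) (q m) ≤ 2 * J + 1 → n < m + K := by
    intro m n hd
    rcases le_total m n with h | h
    · exact hclose m n h hd
    · have : 0 < K := lt_of_lt_of_le (by omega) (le_max_right K0 N₀)
      omega
  refine ⟨K, by
    have : 0 < K := lt_of_lt_of_le (by omega) (le_max_right K0 N₀)
    exact_mod_cast this, fun N => ?_⟩
  obtain ⟨γ, h0, h1, h2⟩ := hg (q 0) (q N)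
  set D := dist (q 0) (q N) with hD
  have hD0 : 0 ≤ D := dist_nonneg
  have hmid : ∀ t, 0 ≤ t → t ≤ D → dist (q 0) (γ t) = t ∧ dist (γ t) (q N) = D - t := by
    intro t ht ht'
    constructor
    · have := h2 0 t le_rfl hD0 ht ht'
      rw [h0] at this
      rw [this, zero_sub, abs_neg, abs_of_nonneg ht]
    · have := h2 t D ht ht' hD0 le_rfl
      rw [h1] at this
      rw [this, abs_of_nonpos (by linarith)]
      ring
  have hpt : ∀ j : ℕ, (j : ℝ) ≤ D → ∃ n ≤ N, dist (q n) (γ j) ≤ J := by
    intro j hj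
    obtain ⟨e1, e2⟩ := hmid j (Nat.cast_nonneg j) hj
    exact pass hY q J hJ N (γ j) (by rw [e1, e2]; ring)
  have hidx : ∀ j : ℕ, (j : ℝ) ≤ D → ∀ n ≤ N, dist (q n) (γ j) ≤ J → n < (j + 1) * K := by
    intro j
    induction j with
    | zero =>
      intro _ n _ hn
      have h3 : γ ((0 : ℕ) : ℝ) = q 0 := by rw [Nat.cast_zero, h0]
      rw [h3] at hn
      have := hclose' 0 n (by linarith)
      omega
    | succ j ih =>
      intro hj n hnN hn
      have hj' : (j : ℝ) ≤ D := by push_cast at hj; linarith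
      obtain ⟨m, hm, hmd⟩ := hpt j hj'
      have h3 := ih hj' m hm hmd
      have h4 : dist (γ ((j + 1 : ℕ) : ℝ)) (γ j) = 1 := by
        rw [h2 _ _ (Nat.cast_nonneg _) hj (Nat.cast_nonneg _) hj']
        push_cast
        simp
      have h5 : dist (q n) (q m) ≤ 2 * J + 1 := by
        have h6 := dist_triangle4 (q n) (γ ((j + 1 : ℕ) : ℝ)) (γ j) (q m)
        rw [dist_comm (γ j) (q m)] at h6
        linarith
      have h6 := hclose' m n h5
      have : (j + 1 + 1) * K = (j + 1) * K + K := by ring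
      omega
  set j := ⌊D⌋₊ with hj
  have hjD : (j : ℝ) ≤ D := Nat.floor_le hD0
  obtain ⟨m, hm, hmd⟩ := hpt j hjD
  have h3 := hidx j hjD m hm hmd
  have h4 : dist (q N) (q m) ≤ 2 * J + 1 := by
    have h5 := (hmid j (Nat.cast_nonneg j) hjD).2
    have h6 : D < j + 1 := Nat.lt_floor_add_one D
    have h7 := dist_triangle (q N) (γ j) (q m)
    rw [dist_comm (q N) (γ j), dist_comm (γ j) (q m)] at h7
    linarith
  have h5 := hclose' m N h4
  have h6 : N ≤ (j + 2) * K := by
    have : (j + 2) * K = (j + 1) * K + K := by ring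
    omega
  have h7 : (N : ℝ) ≤ ((j : ℝ) + 2) * K := by exact_mod_cast h6
  have hK0 : (0 : ℝ) ≤ K := Nat.cast_nonneg _
  nlinarith

end

end Pool.Agent.Q142.Cone
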