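import Mathlib

set_option autoImplicit false

open Filter Topology Cardinal

namespace Pool.Agent.Q142.Cone

/-- Gromov product -/
noncomputable def gp {T : Type*} [MetricSpace T] (o x y : T) : ℝ :=
  (dist o x + dist o y - dist x y) / 2

section
variable {T : Type*} [MetricSpace T]

theorem gp_comm (o x y : T) : gp o x y = gp o y x := by
  unfold gp; rw [dist_comm x y]; ring

theorem gp_nonneg (o x y : T) : 0 ≤ gp o x y := by
  unfold gp
  have := dist_triangle x o y
  rw [dist_comm x o] at this
  linarith

theorem gp_le_left (o x y : T) : gp o x y ≤ dist o x := by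
  unfold gp
  have := dist_triangle o x y
  linarith

theorem gp_le_right (o x y : T) : gp o x y ≤ dist o y := by
  rw [gp_comm]; exact gp_le_left o y x

/-- the four point condition for trees -/
def Four (T : Type*) [MetricSpace T] : Prop :=
  ∀ x y z w : T, dist x z + dist y w ≤ max (dist x y + dist z w) (dist x w + dist y z)

theorem gp_ultra (h : Four T) (o x y z : T) : min (gp o x y) (gp o y z) ≤ gp o x z := by
  have h1 := h x y z o
  unfold gp
  rw [dist_comm y o, dist_comm z o, dist_comm x o] at h1
  rcases le_total (dist x y + dist o z) (dist o x + dist y z) with h2 | h2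
  · rw [max_eq_right h2] at h1
    refine (min_le_right _ _).trans ?_
    linarith
  · rw [max_eq_left h2] at h1
    refine (min_le_left _ _).trans ?_
    linarith

end

/-- Universal real trees with continuum branching. -/
structure UTree (T : Type) [MetricSpace T] : Prop where
  complete : CompleteSpace T
  nonempty : Nonempty T
  between : ∀ (x y : T) (t : ℝ), 0 ≤ t → t ≤ dist x y →
    ∃ z, dist x z = t ∧ dist z y = dist x y - t
  four : Four T
  branch : ∀ (b : T) (l : ℝ), 0 < l →
    ∃ z : ℝ → T, (∀ j, dist b (z j) = l) ∧ ∀ j k, j ≠ k → dist (z j) (z k) = 2 * l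
  card : #T ≤ 𝔠

theorem extend {T T' A : Type} [MetricSpace T] [MetricSpace T'] (hT : Four T) (hT' : UTree T')
    (hA : #A < 𝔠) (f : A → T) (g : A → T')
    (hfg : ∀ a b, dist (f a) (f b) = dist (g a) (g b)) (x : T) :
    ∃ x' : T', ∀ a, dist x' (g a) = dist x (f a) := by
  classical
  have hcomp := hT'.complete
  rcases isEmpty_or_nonempty A with hemp | ⟨⟨o⟩⟩
  · obtain ⟨x'⟩ := hT'.nonempty
    exact ⟨x', fun a => (hemp.false a).elim⟩
  set s : A → ℝ := fun a => gp (f o) x (f a) with hs
  have hbdd : BddAbove (Set.range s) := ⟨dist (f o) x, by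
    rintro _ ⟨a, rfl⟩; exact gp_le_left _ _ _⟩
  have : Nonempty A := ⟨o⟩
  set S : ℝ := ⨆ a, s a with hS
  have hsS : ∀ a, s a ≤ S := fun a => le_ciSup hbdd a
  have hSx : S ≤ dist (f o) x := ciSup_le fun a => gp_le_left _ _ _
  have hb : ∀ n : ℕ, ∃ b, S - 1 / ((n : ℝ) + 1) < s b := fun n =>
    exists_lt_of_lt_ciSup (by
      have : 0 < 1 / ((n : ℝ) + 1) := by positivity
      linarith)
  choose b hb using hb
  have hst : Tendsto (fun n => s (b n)) atTop (𝓝 S) := by
    have h1 : Tendsto (fun n : ℕ => S - 1 / ((n : ℝ) + 1)) atTop (𝓝 (S - 0)) :=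
      tendsto_const_nhds.sub tendsto_one_div_add_atTop_nhds_zero_nat
    rw [sub_zero] at h1
    exact tendsto_of_tendsto_of_tendsto_of_le_of_le h1 tendsto_const_nhds
      (fun n => (hb n).le) (fun n => hsS _)
  have hgpeq : ∀ a c, gp (g o) (g a) (g c) = gp (f o) (f a) (f c) := by
    intro a c; unfold gp; rw [hfg, hfg, hfg]
  have hc : ∀ n, ∃ z, dist (g o) z = s (b n) ∧ dist z (g (b n)) = dist (g o) (g (b n)) - s (b n) :=
    fun n => hT'.between _ _ _ (gp_nonneg _ _ _) (by rw [← hfg]; exact gp_le_right _ _ _)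
  choose c hc1 hc2 using hc
  have hcb : ∀ n, gp (g o) (c n) (g (b n)) = s (b n) := by
    intro n; unfold gp; rw [hc1, hc2]; ring
  have hbb : ∀ n a, min (s (b n)) (s a) ≤ gp (g o) (g (b n)) (g a) := by
    intro n a
    rw [hgpeq]
    have h1 := gp_ultra hT (f o) (f (b n)) x (f a)
    rwa [gp_comm (f o) (f (b n)) x] at h1
  have hca : ∀ n a, min (s (b n)) (s a) ≤ gp (g o) (c n) (g a) := by
    intro n a
    have h1 := gp_ultra hT'.four (g o) (c n) (g (b n)) (g a)
    rw [hcb] at h1
    refine le_trans (le_min (min_le_left _ _) (hbb n a)) h1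
  have hcc : ∀ n m, dist (c n) (c m) ≤ |s (b n) - s (b m)| := by
    intro n m
    have h1 := gp_ultra hT'.four (g o) (c n) (g (b m)) (c m)
    rw [gp_comm (g o) (g (b m)) (c m), hcb] at h1
    have h2 : min (s (b n)) (s (b m)) ≤ gp (g o) (c n) (c m) :=
      le_trans (le_min (hca n (b m)) (min_le_right _ _)) h1
    have h3 : dist (c n) (c m) = s (b n) + s (b m) - 2 * gp (g o) (c n) (c m) := by
      unfold gp; rw [hc1, hc1]; ring
    rw [h3]
    rcases le_total (s (b n)) (s (b m)) with h4 | h4
    · rw [min_eq_left h4] at h2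
      rw [abs_of_nonpos (by linarith)]
      linarith
    · rw [min_eq_right h4] at h2
      rw [abs_of_nonneg (by linarith)]
      linarith
  have hcau : CauchySeq c := by
    have h1 := hst.cauchySeq
    rw [Metric.cauchySeq_iff] at h1 ⊢
    intro ε hε
    obtain ⟨N, hN⟩ := h1 ε hε
    exact ⟨N, fun m hm n hn => lt_of_le_of_lt (hcc m n) (by
      have := hN m hm n hn
      rwa [Real.dist_eq] at this)⟩
  obtain ⟨c', hc'⟩ := cauchySeq_tendsto_of_complete hcau
  have hoc : dist (g o) c' = S := by
    have h1 : Tendsto (fun n => dist (g o) (c n)) atTop (𝓝 (dist (g o) c')) :=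
      tendsto_const_nhds.dist hc'
    simp only [hc1] at h1
    exact tendsto_nhds_unique h1 hst
  have hgpt : ∀ a, Tendsto (fun n => gp (g o) (c n) (g a)) atTop (𝓝 (gp (g o) c' (g a))) := by
    intro a
    unfold gp
    exact (((tendsto_const_nhds.dist hc').add tendsto_const_nhds).sub
      (hc'.dist tendsto_const_nhds)).div_const 2
  have hgpc : ∀ a, gp (g o) c' (g a) = s a := by
    intro a
    apply le_antisymm
    · rcases lt_or_eq_of_le (hsS a) with hlt | heq
      · refine le_of_tendsto (hgpt a) ?_
        filter_upwards [hst.eventually (lt_mem_nhds hlt)] with n hn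
        have h1 := gp_ultra hT (f o) x (f (b n)) (f a)
        have h2 : gp (f o) (f (b n)) (f a) ≤ s a := by
          by_contra hcon
          push Not at hcon
          exact absurd h1 (not_le.2 (lt_min hn hcon))
        have h3 := gp_ultra hT'.four (g o) (g (b n)) (c n) (g a)
        rw [gp_comm (g o) (g (b n)) (c n), hcb, hgpeq] at h3
        by_contra hcon
        push Not at hcon
        exact absurd (h3.trans h2) (not_le.2 (lt_min hn hcon))
      · rw [heq, ← hoc]
        exact gp_le_left _ _ _
    · have h1 : Tendsto (fun n => min (s (b n)) (s a)) atTop (𝓝 (min S (s a))) :=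
        hst.min tendsto_const_nhds
      rw [min_eq_right (hsS a)] at h1
      exact le_of_tendsto_of_tendsto' h1 (hgpt a) (fun n => hca n a)
  set h : ℝ := dist (f o) x - S with hh
  have hdist : ∀ a, dist c' (g a) = dist x (f a) - h := by
    intro a
    have h1 := hgpc a
    simp only [hs, gp] at h1
    rw [hoc, ← hfg] at h1
    rw [hh]
    linarith
  have hh0 : 0 ≤ h := by rw [hh]; linarith
  rcases hh0.eq_or_lt with h0 | hpos
  · refine ⟨c', fun a => ?_⟩
    rw [hdist, ← h0, sub_zero]
  obtain ⟨z, hz1, hz2⟩ := hT'.branch c' h hpos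
  by_contra hcon
  push Not at hcon
  choose a ha using fun j => hcon (z j)
  have hpos' : ∀ j, 0 < gp c' (z j) (g (a j)) := by
    intro j
    unfold gp
    have h1 := dist_triangle (z j) c' (g (a j))
    rw [dist_comm (z j) c', hz1, hdist] at h1
    have h2 : dist (z j) (g (a j)) ≠ dist x (f (a j)) := ha j
    rw [hz1, hdist]
    have h3 : dist (z j) (g (a j)) < dist x (f (a j)) :=
      lt_of_le_of_ne (by linarith) h2
    linarith
  have hinj : Function.Injective a := by
    intro j k hjk
    by_contra hne
    have h1 := gp_ultra hT'.four c' (z j) (g (a j)) (z k)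
    have h2 := hpos' j
    have h3 := hpos' k
    rw [← hjk, gp_comm] at h3
    have h4 := (lt_min h2 h3).trans_le h1
    unfold gp at h4
    rw [hz1, hz1, hz2 j k hne] at h4
    linarith
  have h1 := Cardinal.mk_le_of_injective hinj
  rw [Cardinal.mk_real] at h1
  exact absurd hA (not_lt.2 h1)

/-- compatibility of a pair with the index -/
def Hits {T T' : Type} (i : T ⊕ T') (p : T × T') : Prop :=
  match i with
  | Sum.inl x => p.1 = x
  | Sum.inr x' => p.2 = x'

/-- Two universal real trees are isometric. -/
theorem UTree.iso {T T' : Type} [MetricSpace T] [MetricSpace T'] (hT : UTree T)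
    (hT' : UTree T') : Nonempty (T ≃ᵢ T') := by
  classical
  obtain ⟨t0⟩ := hT.nonempty
  obtain ⟨t0'⟩ := hT'.nonempty
  obtain ⟨r, wo, hr⟩ := Cardinal.exists_ord_eq (T ⊕ T')
  have hcard : #(T ⊕ T') ≤ 𝔠 := by
    rw [Cardinal.mk_sum, Cardinal.lift_id, Cardinal.lift_id]
    exact Cardinal.add_le_of_le Cardinal.aleph0_le_continuum hT.card hT'.card
  have hseg : ∀ i, #{j // r j i} < 𝔠 := fun i =>
    lt_of_lt_of_le (by
      have := Cardinal.card_typein_lt i hr
      rwa [Ordinal.card_typein] at this) hcard
  let F : T ⊕ T' → T × T' := wo.wf.fix fun i G =>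
    if h : ∃ p : T × T', (∀ j (hj : r j i), dist p.1 (G j hj).1 = dist p.2 (G j hj).2) ∧
      Hits i p then Classical.choose h else (t0, t0')
  have hF : ∀ i, F i = if h : ∃ p : T × T', (∀ j (hj : r j i),
      dist p.1 (F j).1 = dist p.2 (F j).2) ∧ Hits i p then Classical.choose h else (t0, t0') :=
    fun i => wo.wf.fix_eq _ i
  have key : ∀ i, (∀ j, r j i → dist (F i).1 (F j).1 = dist (F i).2 (F j).2) ∧ Hits i (F i) := by
    intro i
    induction i using wo.wf.induction with
    | _ i ih =>
      have hcomp : ∀ j k : {j // r j i}, dist (F j).1 (F k).1 = dist (F j).2 (F k).2 := by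
        rintro ⟨j, hj⟩ ⟨k, hk⟩
        rcases trichotomous_of r j k with h | h | h
        · have := (ih k hk).1 j h
          rw [dist_comm (F j).1, dist_comm (F j).2]
          exact this
        · subst h; simp
        · exact (ih j hj).1 k h
      have hex : ∃ p : T × T', (∀ j (hj : r j i),
          dist p.1 (F j).1 = dist p.2 (F j).2) ∧ Hits i p := by
        rcases i with x | x'
        · obtain ⟨x', hx'⟩ := extend hT.four hT' (hseg (Sum.inl x))
            (fun j : {j // r j (Sum.inl x)} => (F j).1) (fun j => (F j).2) hcomp x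
          exact ⟨(x, x'), fun j hj => (hx' ⟨j, hj⟩).symm, rfl⟩
        · obtain ⟨x, hx⟩ := extend hT'.four hT (hseg (Sum.inr x'))
            (fun j : {j // r j (Sum.inr x')} => (F j).2) (fun j => (F j).1)
            (fun j k => (hcomp j k).symm) x'
          exact ⟨(x, x'), fun j hj => hx ⟨j, hj⟩, rfl⟩
      rw [hF i, dif_pos hex]
      exact Classical.choose_spec hex
  have hall : ∀ i j, dist (F i).1 (F j).1 = dist (F i).2 (F j).2 := by
    intro i j
    rcases trichotomous_of r i j with h | h | h
    · rw [dist_comm (F i).1, dist_comm (F i).2]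
      exact (key j).1 i h
    · subst h; simp
    · exact (key i).1 j h
  have h1 : ∀ x : T, (F (Sum.inl x)).1 = x := fun x => (key (Sum.inl x)).2
  have h2 : ∀ x : T', (F (Sum.inr x)).2 = x := fun x => (key (Sum.inr x)).2
  let φ : T → T' := fun x => (F (Sum.inl x)).2
  have hφ : Isometry φ := Isometry.of_dist_eq fun x y => by
    have := hall (Sum.inl x) (Sum.inl y)
    rw [h1, h1] at this
    exact this.symm
  have hsur : Function.Surjective φ := by
    intro x'
    refine ⟨(F (Sum.inr x')).1, ?_⟩
    have := hall (Sum.inl (F (Sum.inr x')).1) (Sum.inr x')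
    rw [h1, h2, dist_self] at this
    exact dist_eq_zero.1 this.symm
  exact ⟨IsometryEquiv.mk (Equiv.ofBijective φ ⟨hφ.injective, hsur⟩) hφ⟩

end Pool.Agent.Q142.Cone
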